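import Pool.Agent.W787.PS.StmD

/-!
PS-BEL: the Beltrami equation with a small smooth perturbation of a constant coefficient.
-/

open MeasureTheory Set Metric Filter Topology
open scoped ContDiff FourierTransform ComplexConjugate InnerProductSpace

noncomputable section

namespace Pool.Agent.W787.PS

namespace BelAux

/-- the denominator -/
def den (μ₀ ξ : ℂ) : ℂ := ξ - μ₀ * conj ξ

theorem den_ge (μ₀ ξ : ℂ) : (1 - ‖μ₀‖) * ‖ξ‖ ≤ ‖den μ₀ ξ‖ := by
  have h : ‖ξ‖ - ‖μ₀ * conj ξ‖ ≤ ‖ξ - μ₀ * conj ξ‖ := norm_sub_norm_le _ _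
  rw [norm_mul, RCLike.norm_conj] at h
  unfold den
  linarith

theorem den_ne {μ₀ ξ : ℂ} (hμ : ‖μ₀‖ < 1) (hξ : ξ ≠ 0) : den μ₀ ξ ≠ 0 := by
  intro h
  have h1 := den_ge μ₀ ξ
  rw [h, norm_zero] at h1
  have h2 : 0 < ‖ξ‖ := norm_pos_iff.mpr hξ
  nlinarith

theorem quot_le {μ₀ : ℂ} (hμ : ‖μ₀‖ < 1) (w ξ : ℂ) (hw : ‖w‖ ≤ ‖ξ‖) :
    ‖w / den μ₀ ξ‖ ≤ 1 / (1 - ‖μ₀‖) := by
  have h0 : 0 < 1 - ‖μ₀‖ := by linarith
  by_cases hξ : ξ = 0
  · have : w = 0 := by rw [hξ, norm_zero] at hw; exact norm_le_zero_iff.mp hw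
    rw [this, zero_div, norm_zero]; positivity
  · have h1 := den_ge μ₀ ξ
    have h2 : 0 < ‖den μ₀ ξ‖ := norm_pos_iff.mpr (den_ne hμ hξ)
    rw [norm_div, div_le_div_iff₀ h2 h0]
    nlinarith

theorem den_meas (μ₀ : ℂ) : Measurable (den μ₀) := by
  have h : Continuous (den μ₀) := by
    unfold den
    exact continuous_id.sub (continuous_const.mul Complex.continuous_conj)
  exact h.measurable

/-- the linear form `x ↦ 2 π i ⟨ξ, x⟩` -/
def Lam (ξ : ℂ) : ℂ →L[ℝ] ℂ :=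
  ((2 * Real.pi : ℂ) * Complex.I) • (Complex.ofRealCLM.comp (innerSL ℝ ξ))

theorem Lam_apply (ξ x : ℂ) : Lam ξ x = (2 * Real.pi : ℂ) * Complex.I * ((⟪ξ, x⟫_ℝ : ℝ) : ℂ) := by
  simp [Lam]

theorem Lam_cont : Continuous Lam := by
  have h1 : Continuous (fun ξ : ℂ => (Complex.ofRealCLM : ℝ →L[ℝ] ℂ).comp (innerSL ℝ ξ)) :=
    continuous_const.clm_comp (innerSL ℝ (E := ℂ)).continuous
  exact h1.const_smul ((2 * Real.pi : ℂ) * Complex.I)

theorem Lam_norm (ξ : ℂ) : ‖Lam ξ‖ ≤ 2 * Real.pi * ‖ξ‖ := by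
  refine ContinuousLinearMap.opNorm_le_bound _ (by positivity) fun x => ?_
  rw [Lam_apply, norm_mul, norm_mul, norm_mul, Complex.norm_I, Complex.norm_real,
    Complex.norm_real, Complex.norm_ofNat, Real.norm_of_nonneg Real.pi_pos.le]
  have h := norm_inner_le_norm (𝕜 := ℝ) ξ x
  have hp := Real.pi_pos
  calc 2 * Real.pi * 1 * ‖⟪ξ, x⟫_ℝ‖ ≤ 2 * Real.pi * 1 * (‖ξ‖ * ‖x‖) :=
        mul_le_mul_of_nonneg_left h (by positivity)
    _ = 2 * Real.pi * ‖ξ‖ * ‖x‖ := by ring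

/-- the exponential -/
def Ex (ξ x : ℂ) : ℂ := Complex.exp (Lam ξ x)

theorem Ex_norm (ξ x : ℂ) : ‖Ex ξ x‖ = 1 := by
  rw [Ex, Lam_apply, Complex.norm_exp]
  simp

theorem Ex_sub_norm (ξ x : ℂ) : ‖Ex ξ x - 1‖ ≤ 2 * Real.pi * ‖ξ‖ * ‖x‖ := by
  have h : Ex ξ x = Complex.exp (Complex.I * ((2 * Real.pi * ⟪ξ, x⟫_ℝ : ℝ) : ℂ)) := by
    rw [Ex, Lam_apply]
    congr 1
    push_cast
    ring
  rw [h]
  refine (Real.norm_exp_I_mul_ofReal_sub_one_le).trans ?_
  rw [norm_mul, norm_mul, Real.norm_of_nonneg Real.pi_pos.le, Real.norm_ofNat]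
  have h := norm_inner_le_norm (𝕜 := ℝ) ξ x
  have hp := Real.pi_pos
  calc 2 * Real.pi * ‖⟪ξ, x⟫_ℝ‖ ≤ 2 * Real.pi * (‖ξ‖ * ‖x‖) :=
        mul_le_mul_of_nonneg_left h (by positivity)
    _ = 2 * Real.pi * ‖ξ‖ * ‖x‖ := by ring

theorem Ex_meas (x : ℂ) : Continuous (fun ξ => Ex ξ x) :=
  Complex.continuous_exp.comp (Lam_cont.clm_apply continuous_const)

theorem Ex_deriv (ξ x : ℂ) : HasFDerivAt (fun x => Ex ξ x) (Ex ξ x • Lam ξ) x :=
  (Lam ξ).hasFDerivAt.cexp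

theorem fi_eq (g : ℂ → ℂ) (x : ℂ) : 𝓕⁻ g x = ∫ ξ, Ex ξ x * g ξ := by
  rw [Real.fourierInv_eq']
  congr 1
  ext ξ
  rw [smul_eq_mul, Ex, Lam_apply]
  congr 2
  push_cast
  ring

theorem two_inner (ξ v : ℂ) : 2 * ((⟪ξ, v⟫_ℝ : ℝ) : ℂ) = conj ξ * v + ξ * conj v := by
  apply Complex.ext <;> simp [Complex.inner] <;> ring

theorem moments_smooth (g : ℂ → ℂ) (hg : ∀ k : ℕ, Integrable (fun ξ => ‖ξ‖ ^ k * ‖g ξ‖)) :
    ContDiff ℝ ∞ (𝓕⁻ g) := by
  have h1 : ContDiff ℝ ∞ (𝓕 g) := Real.contDiff_fourier (N := ⊤) (fun n _ => hg n)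
  have h2 : 𝓕⁻ g = fun x => 𝓕 g (-x) := by
    ext x
    exact Real.fourierInv_eq_fourier_neg g x
  rw [h2]
  exact h1.comp contDiff_neg

end BelAux

open BelAux

theorem bel (hNEU : S_NEU) : S_BEL := by
  intro β μ₀ hβ hβc hμ hsm
  have h0 : 0 < 1 - ‖μ₀‖ := by linarith
  set K : ℝ := 1 / (1 - ‖μ₀‖) with hK
  have hK0 : 0 < K := by positivity
  set βS : SchwartzMap ℂ ℂ := hβc.toSchwartzMap hβ with hβS
  have hβcoe : (βS : ℂ → ℂ) = β := rfl
  set b : ℂ → ℂ := 𝓕 β with hb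
  have hbS : ((𝓕 βS : SchwartzMap ℂ ℂ) : ℂ → ℂ) = b := by
    rw [SchwartzMap.fourier_coe, hβcoe]
  have hbcont : Continuous b := by rw [← hbS]; exact (𝓕 βS : SchwartzMap ℂ ℂ).continuous
  have hbint : Integrable b := by rw [← hbS]; exact (𝓕 βS : SchwartzMap ℂ ℂ).integrable
  have hbk : ∀ k : ℕ, Integrable (fun ξ => ‖ξ‖ ^ k * ‖b ξ‖) := by
    intro k
    have := (𝓕 βS : SchwartzMap ℂ ℂ).integrable_pow_mul volume k
    rwa [hbS] at this
  have hbw : ∀ k : ℕ, Integrable (fun ξ => (1 + ‖ξ‖) ^ k * ‖b ξ‖) := by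
    intro k
    have h1 : Integrable (fun ξ => 2 ^ k * (‖b ξ‖ + ‖ξ‖ ^ k * ‖b ξ‖)) :=
      (hbint.norm.add (hbk k)).const_mul _
    refine h1.mono' ?_ ?_
    · exact ((continuous_const.add continuous_norm).pow k |>.mul hbcont.norm).aestronglyMeasurable
    · refine Filter.Eventually.of_forall fun ξ => ?_
      rw [Real.norm_of_nonneg (by positivity)]
      have h2 : (1 + ‖ξ‖) ^ k ≤ 2 ^ k * (1 + ‖ξ‖ ^ k) := by
        rcases le_total ‖ξ‖ 1 with h | h
        · calc (1 + ‖ξ‖) ^ k ≤ (2 : ℝ) ^ k := pow_le_pow_left₀ (by positivity) (by linarith) k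
            _ = 2 ^ k * 1 := (mul_one _).symm
            _ ≤ 2 ^ k * (1 + ‖ξ‖ ^ k) := by
              apply mul_le_mul_of_nonneg_left _ (by positivity)
              have : 0 ≤ ‖ξ‖ ^ k := by positivity
              linarith
        · calc (1 + ‖ξ‖) ^ k ≤ (2 * ‖ξ‖) ^ k := pow_le_pow_left₀ (by positivity) (by linarith) k
            _ = 2 ^ k * ‖ξ‖ ^ k := mul_pow _ _ _
            _ ≤ 2 ^ k * (1 + ‖ξ‖ ^ k) := by
              apply mul_le_mul_of_nonneg_left _ (by positivity)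
              linarith
      calc (1 + ‖ξ‖) ^ k * ‖b ξ‖ ≤ 2 ^ k * (1 + ‖ξ‖ ^ k) * ‖b ξ‖ :=
            mul_le_mul_of_nonneg_right h2 (norm_nonneg _)
        _ = 2 ^ k * (‖b ξ‖ + ‖ξ‖ ^ k * ‖b ξ‖) := by ring
  have hbB : ∃ B : ℝ, ∀ ξ, ‖b ξ‖ ≤ B := by
    obtain ⟨C, hC⟩ := (𝓕 βS : SchwartzMap ℂ ℂ).decay 0 0
    refine ⟨C, fun ξ => ?_⟩
    have := hC.2 ξ
    rw [hbS] at this
    simpa using this
  set m : ℂ → ℂ := fun ξ => conj ξ / den μ₀ ξ with hm
  set n : ℂ → ℂ := fun ξ => ξ / den μ₀ ξ with hn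
  have hmm : Measurable m := Complex.continuous_conj.measurable.div (den_meas μ₀)
  have hnm : Measurable n := measurable_id.div (den_meas μ₀)
  have hmK : ∀ ξ, ‖m ξ‖ ≤ K := fun ξ => quot_le hμ _ ξ (RCLike.norm_conj ξ).le
  have hnK : ∀ ξ, ‖n ξ‖ ≤ K := fun ξ => quot_le hμ _ ξ le_rfl
  have hKb : K * (∫ ξ, ‖b ξ‖) ≤ 1 / 4 := by
    calc K * (∫ ξ, ‖b ξ‖) ≤ K * ((1 - ‖μ₀‖) / 4) := mul_le_mul_of_nonneg_left hsm hK0.le
      _ = 1 / 4 := by rw [hK]; field_simp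
  obtain ⟨h, hhm, -, hhw, hheq, hhL⟩ := hNEU b m K hbcont hmm hmK hK0 hbw hbB hKb
  have hhi : Integrable h := by
    have := hhw 0
    simp only [pow_zero, one_mul] at this
    exact (integrable_norm_iff hhm.aestronglyMeasurable).mp this
  -- products
  have hprod : ∀ q : ℂ → ℂ, Measurable q → (∀ ξ, ‖q ξ‖ ≤ K) →
      (∀ k : ℕ, Integrable (fun ξ => ‖ξ‖ ^ k * ‖q ξ * h ξ‖)) ∧ Integrable (fun ξ => q ξ * h ξ) := by
    intro q hq hqK
    have h1 : ∀ k : ℕ, Integrable (fun ξ => ‖ξ‖ ^ k * ‖q ξ * h ξ‖) := by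
      intro k
      refine ((hhw k).const_mul K).mono' ?_ ?_
      · exact ((continuous_norm.pow k).measurable.mul (hq.mul hhm).norm).aestronglyMeasurable
      · refine Filter.Eventually.of_forall fun ξ => ?_
        rw [Real.norm_of_nonneg (by positivity), norm_mul]
        have h2 : ‖ξ‖ ^ k ≤ (1 + ‖ξ‖) ^ k := pow_le_pow_left₀ (norm_nonneg _) (by linarith) k
        calc ‖ξ‖ ^ k * (‖q ξ‖ * ‖h ξ‖) ≤ (1 + ‖ξ‖) ^ k * (K * ‖h ξ‖) := by
              apply mul_le_mul h2 _ (by positivity) (by positivity)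
              exact mul_le_mul_of_nonneg_right (hqK ξ) (norm_nonneg _)
          _ = K * ((1 + ‖ξ‖) ^ k * ‖h ξ‖) := by ring
    refine ⟨h1, ?_⟩
    have := h1 0
    simp only [pow_zero, one_mul] at this
    exact (integrable_norm_iff (hq.mul hhm).aestronglyMeasurable).mp this
  obtain ⟨hmk, hmi⟩ := hprod m hmm hmK
  obtain ⟨hnk, hni⟩ := hprod n hnm hnK
  set P : ℂ → ℂ := 𝓕⁻ (fun ξ => m ξ * h ξ) with hP
  set R : ℂ → ℂ := 𝓕⁻ (fun ξ => n ξ * h ξ) with hR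
  have hPs : ContDiff ℝ ∞ P := moments_smooth _ hmk
  have hRs : ContDiff ℝ ∞ R := moments_smooth _ hnk
  have hExi : ∀ (g : ℂ → ℂ), Integrable g → ∀ x, Integrable (fun ξ => Ex ξ x * g ξ) := by
    intro g hg x
    refine hg.bdd_mul (Ex_meas x).aestronglyMeasurable (c := 1) ?_
    exact Filter.Eventually.of_forall fun ξ => (Ex_norm ξ x).le
  -- the relation between P and R
  have hrel : ∀ x, R x = μ₀ * P x + (β x + P x * β x) := by
    intro x
    have e1 : R x - μ₀ * P x = 𝓕⁻ h x := by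
      rw [hP, hR, fi_eq, fi_eq, fi_eq, ← integral_const_mul,
        ← integral_sub (hExi _ hni x) ((hExi _ hmi x).const_mul μ₀)]
      apply integral_congr_ae
      have h3 : ∀ᵐ ξ : ℂ, ξ ≠ 0 := by
        rw [ae_iff]
        simp
      filter_upwards [h3] with ξ hξ
      have h4 := den_ne hμ hξ
      have h5 : n ξ - μ₀ * m ξ = 1 := by
        rw [hn, hm]
        simp only
        rw [← mul_div_assoc, ← sub_div]
        exact div_self h4
      calc Ex ξ x * (n ξ * h ξ) - μ₀ * (Ex ξ x * (m ξ * h ξ)) =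
            Ex ξ x * ((n ξ - μ₀ * m ξ) * h ξ) := by ring
        _ = Ex ξ x * h ξ := by rw [h5, one_mul]
    have e2 : 𝓕⁻ h x = β x + P x * β x := by
      have h6 : h = fun ξ => b ξ +
          (MeasureTheory.convolution (fun ξ => m ξ * h ξ) b (ContinuousLinearMap.mul ℂ ℂ)
            volume) ξ := by
        funext ξ
        conv_lhs => rw [hheq ξ]
        congr 1
        unfold MeasureTheory.convolution
        apply integral_congr_ae
        refine Filter.Eventually.of_forall fun η => ?_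
        simp only [ContinuousLinearMap.mul_apply']
        ring
      have hci : Integrable (MeasureTheory.convolution (fun ξ => m ξ * h ξ) b
          (ContinuousLinearMap.mul ℂ ℂ) volume) := hmi.integrable_convolution _ hbint
      have h7 : 𝓕⁻ h x = 𝓕⁻ b x + 𝓕⁻ (MeasureTheory.convolution (fun ξ => m ξ * h ξ) b
          (ContinuousLinearMap.mul ℂ ℂ) volume) x := by
        rw [fi_eq, fi_eq, fi_eq, ← integral_add (hExi _ hbint x) (hExi _ hci x)]
        congr 1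
        funext ξ
        rw [← mul_add]
        congr 1
        exact congrFun h6 ξ
      have h8 : 𝓕⁻ b x = β x := by
        have hβi : Integrable β := by rw [← hβcoe]; exact βS.integrable
        have := Continuous.fourierInv_fourier_eq hβ.continuous hβi hbint
        exact congrFun this x
      rw [h7, h8]
      congr 1
      rw [Real.fourierInv_eq_fourier_neg, Real.fourier_mul_convolution_eq hmi hbint,
        ← Real.fourierInv_eq_fourier_neg, ← Real.fourierInv_eq_fourier_neg, h8]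
    linear_combination e1 + e2
  -- the function psi
  set g : ℂ → ℂ := fun ξ => h ξ / den μ₀ ξ / (Real.pi * Complex.I) with hg
  have hgm : Measurable g := (hhm.div (den_meas μ₀)).div_const _
  have hgn : ∀ ξ, ‖g ξ‖ * (2 * Real.pi * ‖ξ‖) ≤ 2 * K * ‖h ξ‖ := by
    intro ξ
    have h1 : ‖g ξ‖ = ‖h ξ‖ / ‖den μ₀ ξ‖ / Real.pi := by
      rw [hg]
      simp only [norm_div, norm_mul, Complex.norm_I, mul_one, Complex.norm_real,
        Real.norm_of_nonneg Real.pi_pos.le]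
    have h2 : ‖ξ‖ / ‖den μ₀ ξ‖ ≤ K := by
      have := hnK ξ
      rw [hn] at this
      simpa only [norm_div] using this
    rw [h1]
    calc ‖h ξ‖ / ‖den μ₀ ξ‖ / Real.pi * (2 * Real.pi * ‖ξ‖) =
          2 * ‖h ξ‖ * (‖ξ‖ / ‖den μ₀ ξ‖) := by
          have := Real.pi_pos
          field_simp
      _ ≤ 2 * ‖h ξ‖ * K := mul_le_mul_of_nonneg_left h2 (by positivity)
      _ = 2 * K * ‖h ξ‖ := by ring
  set ψ : ℂ → ℂ := fun x => ∫ ξ, g ξ * (Ex ξ x - 1) with hψ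
  set F' : ℂ → ℂ → (ℂ →L[ℝ] ℂ) := fun x ξ => (g ξ * Ex ξ x) • Lam ξ with hF'
  have hbi : Integrable (fun ξ => 2 * K * ‖h ξ‖) := hhi.norm.const_mul _
  have hF'b : ∀ x ξ, ‖F' x ξ‖ ≤ 2 * K * ‖h ξ‖ := by
    intro x ξ
    rw [hF']
    simp only
    rw [norm_smul, norm_mul, Ex_norm, mul_one]
    exact (mul_le_mul_of_nonneg_left (Lam_norm ξ) (norm_nonneg _)).trans (hgn ξ)
  have hF'm : ∀ x, AEStronglyMeasurable (F' x) volume := fun x =>
    ((hgm.aestronglyMeasurable.mul (Ex_meas x).aestronglyMeasurable).smul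
      Lam_cont.aestronglyMeasurable)
  have hF'i : ∀ x, Integrable (F' x) := fun x =>
    hbi.mono' (hF'm x) (Filter.Eventually.of_forall (hF'b x))
  have hFm : ∀ x, AEStronglyMeasurable (fun ξ => g ξ * (Ex ξ x - 1)) volume := fun x =>
    hgm.aestronglyMeasurable.mul ((Ex_meas x).sub continuous_const).aestronglyMeasurable
  have hFi : ∀ x, Integrable (fun ξ => g ξ * (Ex ξ x - 1)) := by
    intro x
    refine (hbi.mul_const ‖x‖).mono' (hFm x) (Filter.Eventually.of_forall fun ξ => ?_)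
    rw [norm_mul]
    calc ‖g ξ‖ * ‖Ex ξ x - 1‖ ≤ ‖g ξ‖ * (2 * Real.pi * ‖ξ‖ * ‖x‖) :=
          mul_le_mul_of_nonneg_left (Ex_sub_norm ξ x) (norm_nonneg _)
      _ = ‖g ξ‖ * (2 * Real.pi * ‖ξ‖) * ‖x‖ := by ring
      _ ≤ 2 * K * ‖h ξ‖ * ‖x‖ := mul_le_mul_of_nonneg_right (hgn ξ) (norm_nonneg _)
  have hψd : ∀ x, HasFDerivAt ψ (∫ ξ, F' x ξ) x := by
    intro x
    refine hasFDerivAt_integral_of_dominated_of_fderiv_le (F := fun x ξ => g ξ * (Ex ξ x - 1))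
      (F' := F') (s := univ) (bound := fun ξ => 2 * K * ‖h ξ‖) Filter.univ_mem
      (Filter.Eventually.of_forall hFm) (hFi x) (hF'm x)
      (Filter.Eventually.of_forall fun ξ x _ => hF'b x ξ) hbi
      (Filter.Eventually.of_forall fun ξ x _ => ?_)
    have h1 := ((Ex_deriv ξ x).sub_const 1).const_mul (g ξ)
    have h2 : F' x ξ = g ξ • (Ex ξ x • Lam ξ) := by
      rw [hF']
      simp only
      rw [smul_smul]
    rw [h2]
    exact h1
  have hψv : ∀ x v, (∫ ξ, F' x ξ) v = P x * v + R x * conj v := by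
    intro x v
    rw [ContinuousLinearMap.integral_apply (hF'i x), hP, hR, fi_eq, fi_eq, ← integral_mul_const,
      ← integral_mul_const, ← integral_add ((hExi _ hmi x).mul_const _) ((hExi _ hni x).mul_const _)]
    congr 1
    funext ξ
    have hp : (Real.pi : ℂ) ≠ 0 := Complex.ofReal_ne_zero.mpr Real.pi_pos.ne'
    have h1 : F' x ξ v = h ξ / den μ₀ ξ * Ex ξ x * (2 * ((⟪ξ, v⟫_ℝ : ℝ) : ℂ)) := by
      rw [hF', hg]
      simp only [ContinuousLinearMap.smul_apply, smul_eq_mul, Lam_apply]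
      have hI := Complex.I_ne_zero
      field_simp
    rw [h1, two_inner, hm, hn]
    simp only
    ring
  set L : ℂ → (ℂ →L[ℝ] ℂ) := fun x => ContinuousLinearMap.mul ℝ ℂ (P x) +
    (ContinuousLinearMap.mul ℝ ℂ (R x)).comp (Complex.conjCLE : ℂ →L[ℝ] ℂ) with hL
  have hψL : ∀ x, HasFDerivAt ψ (L x) x := by
    intro x
    have : (∫ ξ, F' x ξ) = L x := by
      ext v
      rw [hψv, hL]
      simp
    rw [← this]
    exact hψd x
  have hLs : ContDiff ℝ ∞ L := by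
    rw [hL]
    exact ((ContinuousLinearMap.mul ℝ ℂ).contDiff.comp hPs).add
      (((ContinuousLinearMap.mul ℝ ℂ).contDiff.comp hRs).clm_comp contDiff_const)
  have hψs : ContDiff ℝ ∞ ψ := by
    rw [contDiff_infty_iff_fderiv]
    refine ⟨fun x => (hψL x).differentiableAt, ?_⟩
    have : fderiv ℝ ψ = L := by
      funext x
      exact (hψL x).fderiv
    rw [this]
    exact hLs
  have hconj : ContDiff ℝ ∞ (fun x : ℂ => conj x) :=
    (Complex.conjCLE : ℂ →L[ℝ] ℂ).contDiff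
  refine ⟨fun x => x + μ₀ * conj x + ψ x, fun x => 1 + P x, ?_, contDiff_const.add hPs, ?_, ?_⟩
  · exact (contDiff_id.add (contDiff_const.mul hconj)).add hψs
  · intro x v
    have h1 : HasFDerivAt (fun x : ℂ => x + μ₀ * conj x + ψ x)
        (ContinuousLinearMap.id ℝ ℂ + (μ₀ • (Complex.conjCLE : ℂ →L[ℝ] ℂ)) + L x) x :=
      ((hasFDerivAt_id x).add ((Complex.conjCLE : ℂ →L[ℝ] ℂ).hasFDerivAt.const_mul μ₀)).add (hψL x)
    rw [h1.fderiv]
    have h2 : (ContinuousLinearMap.id ℝ ℂ + (μ₀ • (Complex.conjCLE : ℂ →L[ℝ] ℂ)) + L x) v =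
        v + μ₀ * conj v + (P x * v + R x * conj v) := by
      rw [hL]
      simp
    rw [h2, hrel x]
    ring
  · have h1 : ‖P 0‖ ≤ 1 / 2 := by
      rw [hP, fi_eq]
      calc ‖∫ ξ, Ex ξ 0 * (m ξ * h ξ)‖ ≤ ∫ ξ, K * ‖h ξ‖ := by
            apply norm_integral_le_of_norm_le (hhi.norm.const_mul K)
            refine Filter.Eventually.of_forall fun ξ => ?_
            rw [norm_mul, Ex_norm, one_mul, norm_mul]
            exact mul_le_mul_of_nonneg_right (hmK ξ) (norm_nonneg _)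
        _ = K * ∫ ξ, ‖h ξ‖ := integral_const_mul _ _
        _ ≤ K * (2 * ∫ ξ, ‖b ξ‖) := mul_le_mul_of_nonneg_left hhL hK0.le
        _ ≤ 1 / 2 := by linarith
    intro h2
    have h3 : P 0 = -1 := by linear_combination h2
    rw [h3, norm_neg, norm_one] at h1
    norm_num at h1

end Pool.Agent.W787.PS
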