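import Pool.Agent.W787.PS.StmB

/-!
PS-GIP: the gradient product in charts and the change of variables.
-/

open MeasureTheory Set Metric Filter Topology
open scoped ContDiff

noncomputable section

namespace Pool.Agent.W787.PS

namespace GipAux

/-- algebra of conformal matrices -/
theorem alg {a b p q c : ℝ} (hc : 0 < c) (h1 : a ^ 2 + b ^ 2 = c) (h2 : p ^ 2 + q ^ 2 = c)
    (h3 : a * p + b * q = 0) : a ^ 2 + p ^ 2 = c ∧ b ^ 2 + q ^ 2 = c ∧ a * b + p * q = 0 := by
  have hD : (a * q - b * p) ^ 2 = c ^ 2 := by
    have : (a * q - b * p) ^ 2 = (a ^ 2 + b ^ 2) * (p ^ 2 + q ^ 2) - (a * p + b * q) ^ 2 := by ring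
    rw [this, h1, h2, h3]; ring
  have hq : c * q = a * (a * q - b * p) := by
    rw [← h1]; linear_combination b * h3
  have hp : c * p = -b * (a * q - b * p) := by
    rw [← h1]; linear_combination a * h3
  have hc2 : c ^ 2 ≠ 0 := by positivity
  have hqq : q ^ 2 = a ^ 2 := by
    apply mul_left_cancel₀ hc2
    calc c ^ 2 * q ^ 2 = (c * q) ^ 2 := by ring
      _ = a ^ 2 * (a * q - b * p) ^ 2 := by rw [hq]; ring
      _ = c ^ 2 * a ^ 2 := by rw [hD]; ring
  have hpp : p ^ 2 = b ^ 2 := by
    apply mul_left_cancel₀ hc2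
    calc c ^ 2 * p ^ 2 = (c * p) ^ 2 := by ring
      _ = b ^ 2 * (a * q - b * p) ^ 2 := by rw [hp]; ring
      _ = c ^ 2 * b ^ 2 := by rw [hD]; ring
  have hpq : p * q = -(a * b) := by
    apply mul_left_cancel₀ hc2
    calc c ^ 2 * (p * q) = (c * p) * (c * q) := by ring
      _ = -(a * b) * (a * q - b * p) ^ 2 := by rw [hp, hq]; ring
      _ = c ^ 2 * (-(a * b)) := by rw [hD]; ring
  refine ⟨by rw [hpp]; exact h1, by rw [hqq]; linarith, by rw [hpq]; ring⟩

theorem lin (φ : ℂ →L[ℝ] ℝ) (A : ℂ) : φ A = A.re * φ 1 + A.im * φ Complex.I := by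
  have h : A = A.re • (1 : ℂ) + A.im • Complex.I := by
    apply Complex.ext <;> simp
  conv_lhs => rw [h]
  rw [map_add, map_smul, map_smul, smul_eq_mul, smul_eq_mul]

theorem nsq_re_im (A : ℂ) : ‖A‖ ^ 2 = A.re ^ 2 + A.im ^ 2 := by
  rw [← Complex.normSq_eq_norm_sq, Complex.normSq_apply]; ring

/-- conformal linear maps multiply the inner product of covectors by a constant -/
theorem conf (φ ψ : ℂ →L[ℝ] ℝ) (L : ℂ →L[ℝ] ℂ) {D d : ℝ} (hD : 0 < D) (hd : 0 < d)
    (hL : ∀ v, D * ‖L v‖ ^ 2 = d * ‖v‖ ^ 2) :
    φ (L 1) * ψ (L 1) + φ (L Complex.I) * ψ (L Complex.I) =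
      d / D * (φ 1 * ψ 1 + φ Complex.I * ψ Complex.I) := by
  have hc : 0 < d / D := div_pos hd hD
  have h1 : (L 1).re ^ 2 + (L 1).im ^ 2 = d / D := by
    have := hL 1
    rw [nsq_re_im, norm_one, one_pow, mul_one] at this
    field_simp
    linarith
  have h2 : (L Complex.I).re ^ 2 + (L Complex.I).im ^ 2 = d / D := by
    have := hL Complex.I
    rw [nsq_re_im, Complex.norm_I, one_pow, mul_one] at this
    field_simp
    linarith
  have h3 : (L 1).re * (L Complex.I).re + (L 1).im * (L Complex.I).im = 0 := by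
    have h4 := hL (1 + Complex.I)
    rw [map_add, nsq_re_im, nsq_re_im (1 + Complex.I)] at h4
    simp only [Complex.add_re, Complex.add_im, Complex.one_re, Complex.one_im, Complex.I_re,
      Complex.I_im] at h4
    have h5 : D * ((L 1).re ^ 2 + (L 1).im ^ 2) = d := by rw [h1]; field_simp
    have h6 : D * ((L Complex.I).re ^ 2 + (L Complex.I).im ^ 2) = d := by rw [h2]; field_simp
    have h7 : D * (2 * ((L 1).re * (L Complex.I).re + (L 1).im * (L Complex.I).im)) = 0 := by
      linear_combination h4 - h5 - h6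
    rcases mul_eq_zero.mp h7 with h8 | h8
    · exact absurd h8 hD.ne'
    · linarith
  obtain ⟨e1, e2, e3⟩ := alg hc h1 h2 h3
  rw [lin φ (L 1), lin ψ (L 1), lin φ (L Complex.I), lin ψ (L Complex.I)]
  linear_combination (φ 1 * ψ 1) * e1 + (φ Complex.I * ψ Complex.I) * e2 +
    (φ 1 * ψ Complex.I + φ Complex.I * ψ 1) * e3

theorem gip_eq {M : Type} [TopologicalSpace M] [MeasurableSpace M] (X : ClosedSurface M)
    (u v : M → ℝ) (hu : X.Smooth u) (hv : X.Smooth v) (i : X.ι) (x : M)
    (hx : x ∈ (X.chart i).source) : X.gip u v x * X.dens i (X.chart i x) =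
    gdot (u ∘ (X.chart i).symm) (v ∘ (X.chart i).symm) (X.chart i x) := by
  have hj : x ∈ (X.chart (X.idx x)).source := Classical.choose_spec (X.cover x)
  rw [ClosedSurface.gip]
  set j := X.idx x
  set z := X.chart i x with hz
  have hzt : z ∈ (X.chart i).target := (X.chart i).map_source hx
  have hzx : (X.chart i).symm z = x := (X.chart i).left_inv hx
  have hzs : z ∈ ((X.chart i).symm.trans (X.chart j)).source := by
    rw [OpenPartialHomeomorph.trans_source]
    refine ⟨hzt, ?_⟩
    change (X.chart i).symm z ∈ (X.chart j).source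
    rw [hzx]; exact hj
  set T : ℂ → ℂ := X.chart j ∘ (X.chart i).symm with hT
  have hTz : T z = X.chart j x := by
    change X.chart j ((X.chart i).symm z) = _
    rw [hzx]
  have hopen : IsOpen ((X.chart i).symm.trans (X.chart j)).source :=
    ((X.chart i).symm.trans (X.chart j)).open_source
  have hTd : DifferentiableAt ℝ T z :=
    ((X.trans_smooth i j).contDiffAt (hopen.mem_nhds hzs)).differentiableAt (by simp)
  have hjt : X.chart j x ∈ (X.chart j).target := (X.chart j).map_source hj
  have hmain : ∀ w : M → ℝ, X.Smooth w → fderiv ℝ (w ∘ (X.chart i).symm) z =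
      (fderiv ℝ (w ∘ (X.chart j).symm) (X.chart j x)).comp (fderiv ℝ T z) := by
    intro w hw
    have hev : w ∘ (X.chart i).symm =ᶠ[𝓝 z] (w ∘ (X.chart j).symm) ∘ T := by
      filter_upwards [hopen.mem_nhds hzs] with y hy
      rw [OpenPartialHomeomorph.trans_source] at hy
      change w ((X.chart i).symm y) = w ((X.chart j).symm (X.chart j ((X.chart i).symm y)))
      rw [(X.chart j).left_inv hy.2]
    rw [hev.fderiv_eq]
    have hwd : DifferentiableAt ℝ (w ∘ (X.chart j).symm) (T z) := by
      rw [hTz]
      exact ((hw j).contDiffAt ((X.chart j).open_target.mem_nhds hjt)).differentiableAt (by simp)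
    rw [fderiv_comp z hwd hTd, hTz]
  have hDj : 0 < X.dens j (X.chart j x) := X.dens_pos j _ hjt
  have hDi : 0 < X.dens i z := X.dens_pos i _ hzt
  have hL : ∀ v : ℂ, X.dens j (X.chart j x) * ‖fderiv ℝ T z v‖ ^ 2 = X.dens i z * ‖v‖ ^ 2 := by
    intro v
    have := X.trans_isom i j z hzs v
    rwa [hzx] at this
  have h := conf (fderiv ℝ (u ∘ (X.chart j).symm) (X.chart j x))
    (fderiv ℝ (v ∘ (X.chart j).symm) (X.chart j x)) (fderiv ℝ T z) hDj hDi hL
  rw [gdot, gdot, hmain u hu, hmain v hv]
  simp only [ContinuousLinearMap.comp_apply]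
  rw [h]
  field_simp

theorem gip_cont {M : Type} [TopologicalSpace M] [MeasurableSpace M] (X : ClosedSurface M)
    (u v : M → ℝ) (hu : X.Smooth u) (hv : X.Smooth v) : Continuous (X.gip u v) := by
  rw [continuous_iff_continuousAt]
  intro x
  obtain ⟨i, hi⟩ := X.cover x
  have hos : IsOpen (X.chart i).source := (X.chart i).open_source
  have hot : IsOpen (X.chart i).target := (X.chart i).open_target
  have hfd : ∀ w : M → ℝ, X.Smooth w → ContinuousOn (fderiv ℝ (w ∘ (X.chart i).symm))
      (X.chart i).target := fun w hw => (hw i).continuousOn_fderiv_of_isOpen hot (by simp)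
  have hg : ContinuousOn (gdot (u ∘ (X.chart i).symm) (v ∘ (X.chart i).symm))
      (X.chart i).target := by
    unfold gdot
    exact (((hfd u hu).clm_apply continuousOn_const).mul ((hfd v hv).clm_apply continuousOn_const)).add
      (((hfd u hu).clm_apply continuousOn_const).mul ((hfd v hv).clm_apply continuousOn_const))
  have hq : ContinuousOn (fun z => gdot (u ∘ (X.chart i).symm) (v ∘ (X.chart i).symm) z /
      X.dens i z) (X.chart i).target :=
    hg.div (X.dens_smooth i).continuousOn (fun z hz => (X.dens_pos i z hz).ne')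
  have hc : ContinuousOn (fun y => gdot (u ∘ (X.chart i).symm) (v ∘ (X.chart i).symm)
      (X.chart i y) / X.dens i (X.chart i y)) (X.chart i).source :=
    hq.comp (X.chart i).continuousOn (fun y hy => (X.chart i).map_source hy)
  refine (hc.continuousAt (hos.mem_nhds hi)).congr ?_
  filter_upwards [hos.mem_nhds hi] with y hy
  rw [← gip_eq X u v hu hv i y hy]
  have := X.dens_pos i _ ((X.chart i).map_source hy)
  field_simp

end GipAux

theorem gip_chart : S_GIP := fun _ _ _ X u v hu hv =>
  ⟨GipAux.gip_cont X u v hu hv, fun i x hx => GipAux.gip_eq X u v hu hv i x hx⟩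

theorem chv : S_CHV := by
  intro M _ _ _ _ X i f A hA hAt
  have ht : MeasurableSet (X.chart i).target := (X.chart i).open_target.measurableSet
  have hval : MeasurableEmbedding (Subtype.val : A → ℂ) := MeasurableEmbedding.subtype_coe hA
  set κ : A → M := fun z => (X.chart i).symm z with hκd
  have hκ : MeasurableEmbedding κ := by
    have h1 : IsOpenEmbedding ((X.chart i).symm.source.domRestrict (X.chart i).symm) :=
      (X.chart i).symm.isOpenEmbedding_restrict
    have h2 : MeasurableEmbedding (Set.inclusion hAt) :=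
      { injective := Set.inclusion_injective hAt
        measurable := measurable_inclusion hAt
        measurableSet_image' := fun {s} hs => MeasurableSet.image_inclusion hAt hA hs }
    exact h1.measurableEmbedding.comp h2
  have hrange : range κ = (X.chart i).symm '' A := by
    rw [hκd]; ext x; simp
  set ρ : ℂ → ENNReal := fun z => ENNReal.ofReal (X.dens i z) with hρ
  set ν : Measure ℂ := (volume.restrict A).withDensity ρ with hν
  have himg : ∀ B : Set M, X.chart i '' (B ∩ (X.chart i).symm '' A) =
      Subtype.val '' (κ ⁻¹' B) := by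
    intro B
    ext z
    constructor
    · rintro ⟨x, ⟨hxB, w, hw, rfl⟩, rfl⟩
      rw [(X.chart i).right_inv (hAt hw)]
      exact ⟨⟨w, hw⟩, hxB, rfl⟩
    · rintro ⟨⟨w, hw⟩, hwB, rfl⟩
      exact ⟨(X.chart i).symm w, ⟨hwB, w, hw, rfl⟩, (X.chart i).right_inv (hAt hw)⟩
  have hmeas : X.vol.restrict ((X.chart i).symm '' A) =
      Measure.map κ (Measure.comap Subtype.val ν) := by
    ext B hB
    have hmA : MeasurableSet ((X.chart i).symm '' A) := by
      rw [← hrange]; exact hκ.measurableSet_range
    rw [Measure.restrict_apply hB, Measure.map_apply hκ.measurable hB,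
      Measure.comap_apply _ Subtype.val_injective
        (fun s hs => hval.measurableSet_image.mpr hs) _ (hκ.measurable hB)]
    have hsub : B ∩ (X.chart i).symm '' A ⊆ (X.chart i).source := by
      rintro x ⟨-, w, hw, rfl⟩
      exact (X.chart i).map_target (hAt hw)
    rw [X.vol_chart i _ (hB.inter hmA) hsub, himg B]
    have hS : MeasurableSet (Subtype.val '' (κ ⁻¹' B) : Set ℂ) :=
      hval.measurableSet_image.mpr (hκ.measurable hB)
    rw [hν, withDensity_apply _ hS, Measure.restrict_restrict hS]
    congr 2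
    symm
    apply inter_eq_left.mpr
    rintro z ⟨⟨w, hw⟩, -, rfl⟩
    exact hw
  have hνr : ν.restrict A = ν := by
    rw [hν, restrict_withDensity hA, Measure.restrict_restrict hA, inter_self]
  have hmc : Measure.map Subtype.val (Measure.comap (Subtype.val : A → ℂ) ν) = ν := by
    rw [hval.map_comap, Subtype.range_coe, hνr]
  have hρm : AEMeasurable (fun z => Real.toNNReal (X.dens i z)) (volume.restrict A) := by
    have : AEMeasurable (X.dens i) (volume.restrict A) :=
      ((X.dens_smooth i).continuousOn.mono hAt).aemeasurable hA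
    exact this.real_toNNReal
  have hcongr : ∀ᵐ z ∂(volume.restrict A), (Real.toNNReal (X.dens i z)) • f ((X.chart i).symm z) =
      f ((X.chart i).symm z) * X.dens i z := by
    rw [ae_restrict_iff' hA]
    refine Filter.Eventually.of_forall fun z hz => ?_
    rw [NNReal.smul_def, Real.coe_toNNReal _ (X.dens_pos i z (hAt hz)).le, smul_eq_mul, mul_comm]
  constructor
  · rw [IntegrableOn, hmeas, hκ.integrable_map_iff, IntegrableOn]
    have h1 : Integrable (f ∘ κ) (Measure.comap Subtype.val ν) ↔
        Integrable (fun z => f ((X.chart i).symm z)) ν := by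
      conv_rhs => rw [← hmc]
      rw [hval.integrable_map_iff]
      rfl
    rw [h1, hν]
    have h2 := integrable_withDensity_iff_integrable_smul₀ hρm
      (g := fun z => f ((X.chart i).symm z))
    exact h2.trans (integrable_congr hcongr)
  · rw [hmeas, hκ.integral_map]
    have h1 : ∫ x, f (κ x) ∂(Measure.comap Subtype.val ν) = ∫ z, f ((X.chart i).symm z) ∂ν := by
      conv_rhs => rw [← hmc]
      rw [hval.integral_map]
    rw [h1, hν]
    have h2 := integral_withDensity_eq_integral_smul₀ hρm (fun z => f ((X.chart i).symm z))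
    exact h2.trans (integral_congr_ae hcongr)

end Pool.Agent.W787.PS
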