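import Mathlib
import Pool.Agent.W606.PS.Stm

/-!
PS-STEP: assembly of one step for three classes.
-/

set_option autoImplicit false

open Set Relation

namespace Pool.Agent.W196.PSSTEP

open Pool.Agent.W606.PS

theorem main (h1 : S_FPLUS) (h2 : S_LEG) (h3 : S_FACTA) (h4 : S_CASE1) (h5 : S_CASE2)
    (h6 : S_FSTEP) : S_STEP := by
  intro V T _ G tv hS k hk hsep Om Z hR F hF hFr
  have hne : Omᶜ.Nonempty := by
    obtain ⟨z, hz⟩ := (hR.con 0).1
    exact ⟨z, by rw [← hR.cov]; exact mem_iUnion.mpr ⟨0, hz⟩⟩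
  obtain ⟨f, hf1, hf2, hf3⟩ := h1 V G hS.conn Om hne F hF
  have hfF : ∀ v ∈ Nb G Om, f v = F v := fun v hv => hf1 v hv.1
  obtain ⟨col, leg, hL⟩ := h2 V G hS.conn (2 * k) Om Z hR.con hR.disj hR.cov f hf2
    (fun v hv => by rw [hfF v hv]; exact hFr v hv) hf3
  obtain ⟨t, ht, i, hi⟩ := h3 V T G tv hS Om Z hR (fun i => {v | col v = i})
    (fun i z hz => hL.colZ i z hz) hL.cls
    (fun i j hij => by
      rw [Set.disjoint_left]
      intro v hv hv'
      exact hij (hv.symm.trans hv'))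
    (by
      ext v
      simp)
  have hpre : PreStep G k Om Z f := by
    by_cases hle : ∀ i, tv t i ∈ Om → f (tv t i) ≤ 9 * k + 2
    · exact h4 V T G tv hS k hk Om Z hR f col leg hL t ht ⟨i, hi⟩ hle
    · push Not at hle
      obtain ⟨i', hi', hlt⟩ := hle
      exact h5 V T G tv hS k hk hsep Om Z hR f col leg hL t ht i' hi' hlt
  obtain ⟨Y, h, hY1, hY2, hY3, hY4, hY5, hY6, hY7⟩ := hpre
  exact h6 V G k hk Om Z F hFr
    ⟨Y, h, hY1, hY2, fun v hv => (hY3 v hv).trans (hfF v hv), hY4, hY5, hY6, hY7⟩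

end Pool.Agent.W196.PSSTEP
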